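import Pool.Agent.P.MP_7a71fe_lc.TD.Key

/-!
The distinguishing algorithm and its analysis.
-/

namespace Pool.Agent.P.MP_7a71fe_lc.TD

open Pool.Agent.P.MP_d7de43_lc Finset
open Pool.Agent.Lib.Helper47 hiding fstP sndP
open Pool.Agent.P.MP_ba7db8_lc (PTP ps_fst pt_size)

def key0 (N c t n : ℕ) : Str :=
  pair (N ^ (n + 1)).bits (pair (c % N ^ (n + 1)).bits (pair (pw c t (N ^ (n + 1))).bits []))

def key (N c t n : ℕ) : Str := key0 N c t n ++ rep (W n - (key0 N c t n).length)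

def kap (κ₀ : ℕ → Str) (n₀ N c t s n : ℕ) : Str :=
  if n < n₀ then κ₀ n else if N.size ≤ n ∧ n ≤ s then key N c t n else rep (W n)

def Chk (N t s : ℕ) (y : Str) : Prop :=
  (fstP y).length ≤ s ∧ num (fstP (sndP y)) < N ^ ((fstP y).length + 1) ∧
    (num (fstP (sndP y))).Coprime N ∧ y = cd (fstP y).length (num (fstP (sndP y)))
      (pw (num (fstP (sndP y))) t (N ^ ((fstP y).length + 1)))

theorem chk_cd {N t s n Y : ℕ} (h1 : n ≤ s) (h2 : Y < N ^ (n + 1)) (h3 : Y.Coprime N) :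
    Chk N t s (cd n Y (pw Y t (N ^ (n + 1)))) := by
  simp only [Chk, cd, fstP_pair, sndP_pair, num_bits, length_rep]
  exact ⟨h1, h2, h3, trivial⟩

theorem fk_key {N : ℕ} (hN : 0 < N) (c t n : ℕ) (x : Str) : fk (key N c t n) x =
    cd x.length (c ^ msb x 0 % N ^ (n + 1))
      (pw (c ^ msb x 0 % N ^ (n + 1)) t (N ^ (n + 1))) := by
  have h0 : 0 < N ^ (n + 1) := Nat.pow_pos hN
  have h : ∀ a b d r : Str, pair a (pair b (pair d [])) ++ r = pair a (pair b (pair d r)) := by
    simp [pair]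
  rw [key, key0, h, fk]
  simp only [fstP_pair, sndP_pair, num_bits, if_neg h0.ne', pw_eq h0, ← Nat.pow_mod, ← pow_mul,
    mul_comm t]

theorem length_key {N n : ℕ} (hN : 0 < N) (hn : N.size ≤ n) (c t : ℕ) :
    (key N c t n).length = W n := by
  have h0 : 0 < N ^ (n + 1) := Nat.pow_pos hN
  have h1 : N ^ (n + 1) < 2 ^ (n * (n + 1)) := by
    rw [pow_mul]; exact Nat.pow_lt_pow_left (Nat.size_le.1 hn) n.succ_ne_zero
  have h2 : ∀ v, v ≤ N ^ (n + 1) → v.bits.length ≤ n * (n + 1) := fun v hv => by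
    rw [Nat.size_eq_bits_len]; exact Nat.size_le.2 (hv.trans_lt h1)
  have h3 := h2 _ le_rfl
  have h4 := h2 _ (Nat.mod_lt c h0).le
  have h5 := h2 (pw c t (N ^ (n + 1))) (by rw [pw_eq h0]; exact (Nat.mod_lt _ h0).le)
  have h6 : (key0 N c t n).length ≤ W n := by
    simp only [key0, length_pair, List.length_nil, W]; nlinarith
  rw [key, List.length_append, length_rep]; omega

theorem cd_inj {n Y Z n' Y' Z' : ℕ} (h : cd n Y Z = cd n' Y' Z') : n = n' ∧ Y = Y' ∧ Z = Z' := by
  simp only [cd, pair_inj] at h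
  exact ⟨by simpa using congrArg List.length h.1, bits_injective h.2.1, bits_injective h.2.2⟩

theorem val_kap {κ₀ : ℕ → Str} (h₀ : ∀ n, Val n (κ₀ n)) {N r : ℕ} (h : 2 < N)
    (hc : N.Coprime N.totient) (hr : r.Coprime N) (n₀ t s n : ℕ) :
    Val n (kap κ₀ n₀ N (enc N s 1 r) t s n) := by
  unfold kap
  split_ifs with h1 h2
  · exact h₀ n
  · refine ⟨length_key (by omega) h2.1 _ _, fun x y hx hy e => ?_⟩
    rw [fk_key (by omega), fk_key (by omega)] at e
    exact msb_inj n x y hx hy (enc_inj h hc hr h2.2 (hx ▸ msb_lt_pow x) (hy ▸ msb_lt_pow y)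
      (cd_inj e).2.1)
  · exact val_rep n

theorem kap_per {N c s e : ℕ} (hN : 0 < N) (h : c ^ e ≡ 1 [MOD N ^ (s + 1)]) (κ₀ : ℕ → Str)
    (n₀ t : ℕ) : kap κ₀ n₀ N c (t + e) s = kap κ₀ n₀ N c t s := by
  funext n
  unfold kap
  split_ifs with h1 h2
  · rfl
  · have h0 : 0 < N ^ (n + 1) := Nat.pow_pos hN
    have h3 := (h.of_dvd (pow_dvd_pow N (Nat.succ_le_succ h2.2))).mul_left (c ^ t)
    rw [← pow_add, mul_one] at h3
    have h4 : pw c (t + e) (N ^ (n + 1)) = pw c t (N ^ (n + 1)) := by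
      rw [pw_eq h0, pw_eq h0]; exact h3
    rw [key, key, key0, key0, h4]
  · rfl

/-- the test -/
def Acc (G D : Str → Str) (N t s l : ℕ) (z : Str) : Prop :=
  D (G z) = z ∧ ((G z).length ≤ l ∨ Chk N t s (G z))

theorem acc_yes {i : Mach × Mach × Str} {κ₀ : ℕ → Str} {n₀ N r t s l : ℕ} {z : Str} (h : 2 < N)
    (hr : r.Coprime N) (hκ : ∀ n, Val n (kap κ₀ n₀ N (enc N s 1 r) t s n))
    (H : Works i (kap κ₀ n₀ N (enc N s 1 r) t s))
    (hl : ∀ k x : Str, k.length = W x.length → x.length < N.size + n₀ → (fk k x).length ≤ l)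
    (hs : ∀ b, (run i.1 b (i.2.2 ++ z)).length ≤ s) :
    Acc (run i.1 (tal (bt (kap κ₀ n₀ N (enc N s 1 r) t s))))
      (run i.2.1 (tal (bt (kap κ₀ n₀ N (enc N s 1 r) t s)))) N t s l (i.2.2 ++ z) := by
  obtain ⟨h1, x, h2⟩ := H z
  refine ⟨h1, ?_⟩
  have h3 := hs (tal (bt (kap κ₀ n₀ N (enc N s 1 r) t s)))
  rw [← h2, ff] at h3 ⊢
  by_cases h4 : x.length < N.size + n₀
  · exact Or.inl (hl _ _ (hκ _).1 h4)
  · have h5 := (lt_fk _ x).trans_le h3
    rw [kap, if_neg (by omega), if_pos ⟨by omega, h5.le⟩, fk_key (by omega)]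
    refine Or.inr (chk_cd h5.le (Nat.mod_lt _ (Nat.pow_pos (by omega))) ?_)
    rw [Nat.Coprime, ((Nat.mod_modEq _ _).of_dvd (dvd_pow_self _ (Nat.succ_ne_zero _))).gcd_eq]
    exact (enc_cop hr s 1).pow_left _

open Classical in
theorem count_no {G D : ℕ → Str → Str} {u : Str} {N s l m L : ℕ} (hN : 2 < N)
    (hc : N.Coprime N.totient) (hG : ∀ t, G (t + N.totient) = G t)
    (h1 : 12 * (2 ^ (l + 1) + (s + 1) * N) ≤ 2 ^ m) (h2 : 8 * N ≤ 2 ^ L) :
    2 * ((strs m ×ˢ range (2 ^ L)).filter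
      fun a => Acc (G a.2) (D a.2) N a.2 s l (u ++ a.1)).card ≤ 2 ^ (m + L) := by
  set e := N.totient with he
  have he0 : 0 < e := Nat.totient_pos.2 (by omega)
  have he1 : e ≤ N := Nat.totient_le N
  let y : Str × ℕ → Str := fun a => G a.2 (u ++ a.1)
  let Rt : Str → Prop := fun y => num (fstP (sndP y)) ^ (2 * e) ≡ 1 [MOD N ^ ((fstP y).length + 1)]
  let X := strs m ×ˢ range (2 ^ L)
  let P1 := X.filter fun a => D a.2 (y a) = u ++ a.1 ∧ (y a).length ≤ l
  let P2 := X.filter fun a => D a.2 (y a) = u ++ a.1 ∧ Chk N a.2 s (y a) ∧ Rt (y a)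
  let P3 := X.filter fun a => Chk N a.2 s (y a) ∧ ¬ Rt (y a)
  have inj : ∀ a b : Str × ℕ, D a.2 (y a) = u ++ a.1 → D b.2 (y b) = u ++ b.1 → a.2 = b.2 →
      y a = y b → a = b := fun a b ha hb e1 e2 =>
    Prod.ext (List.append_cancel_left (ha.symm.trans (by rw [e1, e2, hb]))) e1
  have c1 : P1.card ≤ (range (2 ^ L) ×ˢ range (2 ^ (l + 1))).card := by
    refine card_le_card_of_injOn (fun a => (a.2, AC.idx (y a))) (fun a ha => ?_)
      fun a ha b hb e => ?_
    · simp only [P1, X, coe_filter, mem_product, mem_range, Set.mem_ofPred_eq, coe_product,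
        Set.mem_prod, mem_coe] at ha ⊢
      exact ⟨ha.1.2, (AC.idx_lt _).trans_le (Nat.pow_le_pow_right two_pos (by omega))⟩
    · simp only [P1, coe_filter, Set.mem_ofPred_eq, Prod.mk.injEq] at ha hb e
      exact inj a b ha.2.1 hb.2.1 e.1 (by rw [← AC.str_idx (y a), e.2, AC.str_idx])
  have c2 : P2.card ≤ (range (2 ^ L) ×ˢ range (s + 1) ×ˢ range N).card := by
    refine card_le_card_of_injOn (fun a => (a.2, (fstP (y a)).length, num (fstP (sndP (y a))) % N))
      (fun a ha => ?_) fun a ha b hb e => ?_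
    · simp only [P2, X, coe_filter, mem_product, mem_range, Set.mem_ofPred_eq, coe_product,
        Set.mem_prod, mem_coe] at ha ⊢
      exact ⟨ha.1.2, Nat.lt_succ_of_le ha.2.2.1.1, Nat.mod_lt _ (by omega)⟩
    · simp only [P2, coe_filter, Set.mem_ofPred_eq, Prod.mk.injEq, Rt] at ha hb e
      obtain ⟨-, a1, ⟨-, a2, -, a3⟩, a4⟩ := ha
      obtain ⟨-, b1, ⟨-, b2, -, b3⟩, b4⟩ := hb
      refine inj a b a1 b1 e.1 ?_
      rw [e.2.1] at a2 a3 a4
      have h3 := Nat.ModEq.eq_of_lt_of_lt (root_uniq (by omega) (by omega)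
        (Nat.Coprime.mul_right (Nat.coprime_two_right.2 (odd_of hN hc)) hc) a4 b4 e.2.2) a2 b2
      rw [h3, e.1] at a3
      exact a3.trans b3.symm
  have c3 : P3.card ≤ (2 ^ L + 2 * e) / 3 * (strs m).card := by
    refine card_le_mul_card_image_of_maps_to (f := Prod.fst) (fun a ha => ?_) _ fun z _ => ?_
    · exact (mem_product.1 (mem_filter.1 ha).1).1
    · let S := (range (2 ^ L)).filter fun t => Chk N t s (y (z, t)) ∧ ¬ Rt (y (z, t))
      have h3 : (P3.filter fun a => a.1 = z).card ≤ S.card := by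
        refine card_le_card_of_injOn Prod.snd (fun a ha => ?_) fun a ha b hb e => ?_
        · simp only [P3, X, S, coe_filter, mem_filter, mem_product, Set.mem_ofPred_eq] at ha ⊢
          obtain ⟨⟨h4, h5⟩, rfl⟩ := ha
          exact ⟨h4.2, h5⟩
        · simp only [coe_filter, Set.mem_ofPred_eq] at ha hb
          exact Prod.ext (ha.2.trans hb.2.symm) e
      have h4 : ∀ t d, y (z, t + d) = y (z, t) → t ∈ S → t + d ∈ S → d ∣ 2 * e → False := by
        intro t d e1 ht ht' hd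
        obtain ⟨-, ⟨-, -, a1, a2⟩, a3⟩ := mem_filter.1 ht
        obtain ⟨-, ⟨-, -, -, b2⟩, -⟩ := mem_filter.1 ht'
        rw [e1] at b2
        have h5 := (cd_inj (a2.symm.trans b2)).2.2
        have h0 : 0 < N ^ ((fstP (y (z, t))).length + 1) := Nat.pow_pos (by omega)
        rw [pw_eq h0, pw_eq h0, pow_add (num _)] at h5
        have h6 := Nat.ModEq.cancel_left_of_coprime (a := 1) (b := num (fstP (sndP (y (z, t)))) ^ d)
          (a1.symm.pow _ t) (by rw [mul_one]; exact h5)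
        obtain ⟨k, hk⟩ := hd
        exact a3 (by simpa only [Rt, hk, pow_mul, one_pow] using (h6.pow k).symm)
      have h5 := shift3 (S := S) (L := 2 ^ L) (e := e) (fun t ht => mem_range.1 (mem_filter.1 ht).1)
        fun t ht => ⟨fun h => h4 t e (by simp only [y, hG]) ht h (Dvd.intro_left 2 rfl),
          fun h => h4 t _ (by simp only [y, two_mul, ← add_assoc, hG]) ht h dvd_rfl⟩
      omega
  have c4 : (X.filter fun a => Acc (G a.2) (D a.2) N a.2 s l (u ++ a.1)) ⊆ P1 ∪ P2 ∪ P3 := by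
    intro a ha
    obtain ⟨a1, a2, a3 | a3⟩ := mem_filter.1 ha
    · exact mem_union_left _ (mem_union_left _ (mem_filter.2 ⟨a1, a2, a3⟩))
    · by_cases h : Rt (y a)
      · exact mem_union_left _ (mem_union_right _ (mem_filter.2 ⟨a1, a2, a3, h⟩))
      · exact mem_union_right _ (mem_filter.2 ⟨a1, a3, h⟩)
  have c5 := (card_le_card c4).trans ((card_union_le _ _).trans
    (Nat.add_le_add_right (card_union_le _ _) _))
  simp only [card_product, card_range, card_strs] at c1 c2 c3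
  have c6 : 12 * ((2 ^ L + 2 * e) / 3) ≤ 5 * 2 ^ L := by omega
  have c7 := Nat.mul_le_mul_right (2 ^ m) c6
  have c8 := Nat.mul_le_mul_left (2 ^ L) h1
  rw [pow_add]
  nlinarith

open Classical in
theorem cnt_le (m L : ℕ) (P : Str → Prop) (Q : Str × ℕ → Prop)
    (h : ∀ w, P w → Q (w.take m, msb (w.drop m) 0)) :
    cnt (m + L) P ≤ ((strs m ×ˢ range (2 ^ L)).filter Q).card := by
  rw [cnt, ← Set.ncard_coe_finset]
  refine Set.ncard_le_ncard_of_injOn (fun w => (w.take m, msb (w.drop m) 0)) (fun w hw => ?_)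
    (fun w hw v hv e => ?_) (finite_toSet _)
  · have h1 := msb_lt_pow (w.drop m)
    rw [List.length_drop, hw.1, Nat.add_sub_cancel_left] at h1
    simp only [coe_filter, mem_product, mem_strs, mem_range, Set.mem_ofPred_eq, List.length_take]
    exact ⟨⟨by rw [hw.1]; omega, h1⟩, h w hw.2⟩
  · simp only [Prod.mk.injEq] at e
    rw [← List.take_append_drop m w, ← List.take_append_drop m v, e.1,
      msb_inj L _ _ (by simp [hw.1]) (by simp [hv.1]) e.2]

theorem cnt_all (k : ℕ) (P : Str → Prop) (h : ∀ w, w.length = k → P w) : cnt k P = 2 ^ k := by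
  rw [cnt, ← card_strs, ← Set.ncard_coe_finset]
  congr 1
  ext w
  simpa using h w

/-! ### Running time -/

def gs (p : ℕ × ℕ) : ℕ × ℕ := if p.1 = 0 then p else (p.2 % p.1, p.1)

theorem gs_iter (k : ℕ) : ∀ a b, a ≤ b → a * b < 2 ^ k → (gs^[k] (a, b)).2 = a.gcd b := by
  induction k with
  | zero =>
    intro a b h1 h2
    have : a = 0 := by nlinarith
    simp [this]
  | succ k ih =>
    intro a b h1 h2
    rw [Function.iterate_succ_apply, gs]
    split_ifs with h
    · simp only at h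
      subst h
      exact ih _ _ h1 (by simp)
    · simp only at h ⊢
      have h3 := Nat.mod_lt b (Nat.pos_of_ne_zero h)
      have h4 : b % a + a ≤ b := by
        have := Nat.mod_add_div b a
        have : 0 < b / a := Nat.div_pos h1 (Nat.pos_of_ne_zero h)
        nlinarith
      rw [ih _ _ h3.le (by rw [pow_succ] at h2; nlinarith), Nat.gcd_rec a b]

section
variable {α : Type} [Enc α]

theorem pt_gcd {a b : α → ℕ} (ha : PT a) (hb : PT b) : PT fun x => (a x).gcd (b x) := by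
  have hm := PT.max ha hb
  have h1 : PT gs := PTP.ite (PTP.eq (by fun_prop) (PT.const 0)) PT.id (by fun_prop)
  have h2 := PT.iterate_inv (f := fun _ : α => gs)
    (l := fun x => (max (a x) (b x)).bits ++ (max (a x) (b x)).bits)
    (s := fun x => (min (a x) (b x), max (a x) (b x))) (by fun_prop) (by fun_prop) (by fun_prop)
    (fun x p => p.1 ≤ max (a x) (b x) ∧ p.2 ≤ max (a x) (b x)) (fun x => ⟨min_le_max, le_rfl⟩)
    (fun x p hp => by
      unfold gs
      split_ifs
      · exact hp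
      · exact ⟨(Nat.mod_le _ _).trans hp.2, hp.1⟩)
    (fun x => 8 * size (max (a x) (b x)) + 1) (((PB.const 8).mul hm.size_le).add (PB.const 1))
    fun x p hp => by
      have := size_nat_mono hp.1
      have := size_nat_mono hp.2
      rw [size_prod]; omega
  refine (PT.snd h2).of_eq fun x => ?_
  have h3 := lt_two_pow_length_bits (max (a x) (b x))
  rw [gs_iter _ _ _ min_le_max (by
    rw [List.length_append, pow_add]; exact Nat.mul_lt_mul'' (min_le_max.trans_lt h3) h3)]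
  rcases le_total (a x) (b x) with h | h
  · rw [min_eq_left h, max_eq_right h]
  · rw [min_eq_right h, max_eq_left h, Nat.gcd_comm]

variable {N c t s l n : α → ℕ} {y : α → Str}

theorem ptp_Chk (hN : PT N) (ht : PT t) (hs : PT s) (hy : PT y) :
    PTP fun a => Chk (N a) (t a) (s a) (y a) := by
  have h1 := PT.pow hN (PT.add (PT.length (pt_fstP hy)) (PT.const 1))
    ((ps_length (pt_fstP hy)).add (PB.const 1))
  exact (PTP.le (by fun_prop) hs).and ((PTP.lt (by fun_prop) h1).and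
    ((PTP.eq (pt_gcd (by fun_prop) hN) (PT.const 1)).and
      (PTP.eq hy (pt_cd (pt_fstP hy) (by fun_prop) (by fun_prop)))))

theorem pt_kap (κ₀ : ℕ → Str) (n₀ : ℕ) (hN : PT N) (hc : PT c) (ht : PT t) (hs : PT s) (hn : PT n)
    (hb : PS n) : PT fun a => kap κ₀ n₀ (N a) (c a) (t a) (s a) (n a) := by
  have h1 := PT.pow hN (PT.add hn (PT.const 1)) (hb.add (PB.const 1))
  have h2 : PT fun a => key0 (N a) (c a) (t a) (n a) := by unfold key0; fun_prop
  have h3 : PT fun a => key (N a) (c a) (t a) (n a) :=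
    PT.append h2 (pt_rep (PT.sub (pt_W hn) (PT.length h2)) ((ps_W hb).mono fun _ => Nat.sub_le _ _))
  refine (PTP.ite (PTP.lt hn (PT.const n₀)) (PT.getD (PT.const ((List.range n₀).map κ₀)) hn
    (PT.const [])) (PTP.ite ((PTP.le (pt_size hN) hn).and (PTP.le hn hs)) h3
      (pt_rep (pt_W hn) (ps_W hb)))).of_eq fun a => ?_
  unfold kap
  split_ifs with h <;> simp [List.getD_eq_getElem?_getD, h]

theorem pt_orc (κ₀ : ℕ → Str) (n₀ : ℕ) (hN : PT N) (hc : PT c) (ht : PT t) (hs : PT s) :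
    PT fun p : α × Str => tal (bt (kap κ₀ n₀ (N p.1) (c p.1) (t p.1) (s p.1))) p.2 := by
  refine pt_tal (β := fun a => bt (kap κ₀ n₀ (N a) (c a) (t a) (s a))) ?_
  have h1 : PS fun p : α × Str => p.2.length + 1 := (ps_length (PT.snd PT.id)).add (PB.const 1)
  exact PT.getD (PT.flatten (pt_rmap (by fun_prop) h1 (pt_kap κ₀ n₀ (by fun_prop) (by fun_prop)
    (by fun_prop) (by fun_prop) (by fun_prop) ((ps_fst h1).mono fun _ => min_le_right _ _))))
    (by fun_prop) (PT.const false)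

theorem ptp_Acc (M M' : Mach) {b : α → Ora} (hb : PT fun p : α × Str => b p.1 p.2) (hN : PT N)
    (ht : PT t) (hs : PT s) (hl : PT l) (hy : PT y) :
    PTP fun a => Acc (run M (b a)) (run M' (b a)) (N a) (t a) (s a) (l a) (y a) :=
  (PTP.eq (pt_run M' hb (pt_run M hb hy)) hy).and
    ((PTP.le (PT.length (pt_run M hb hy)) hl).or (ptp_Chk hN ht hs (pt_run M hb hy)))

end

end Pool.Agent.P.MP_7a71fe_lc.TD
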