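import Pool.Agent.P.MP_7a71fe_lc.Defs

/-!
The Damgard-Jurik residuosity problem and one-sided randomized polynomial time.
-/

namespace Pool.Agent.P.MP_7a71fe_lc.TD

open Pool.Agent.P.MP_d7de43_lc

/-- The Damgard-Jurik ciphertext of the message `m` with randomness `r`. -/
def enc (N s m r : ℕ) : ℕ := (1 + N) ^ m * r ^ N ^ s % N ^ (s + 1)

/-- The number of strings `w` of length `k` such that `M` accepts `N`, `c`, `w`. -/
noncomputable def acc (M : List Bool → List Bool) (N c k : ℕ) : ℕ :=
  cnt k fun w => M (pair (pair N.bits c.bits) w) = [true]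

/-- A randomized polynomial-time algorithm accepts all ciphertexts of `1` with certainty and
all ciphertexts of `0` with probability at most one half. -/
def Easy (s : Polynomial ℕ) : Prop :=
  ∃ (M : List Bool → List Bool) (p : Polynomial ℕ), InFP M ∧
    ∀ N r : ℕ, 2 < N → N.Coprime N.totient → r.Coprime N →
      acc M N (enc N (s.eval N.size) 1 r) (p.eval N.size) = 2 ^ p.eval N.size ∧
      2 * acc M N (enc N (s.eval N.size) 0 r) (p.eval N.size) ≤ 2 ^ p.eval N.size

/-- Tally sets. -/
def Tally (T : Set (List Bool)) : Prop := ∀ y ∈ T, ∀ b ∈ y, b = false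

end Pool.Agent.P.MP_7a71fe_lc.TD
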