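import Pool.Agent.P.MP_7a71fe_lc.TD.Tal

/-!
Key sequences, the keyed function, the image of the complete set, and the category argument.
-/

namespace Pool.Agent.P.MP_7a71fe_lc.TD

open Pool.Agent.P.MP_d7de43_lc
open Pool.Agent.Lib.Helper47 hiding fstP sndP
open Pool.Agent.P.MP_ba7db8_lc (PTP ps_fst)

def W (n : ℕ) : ℕ := 9 * n ^ 2 + 9 * n + 3

def st (n : ℕ) : ℕ := 3 * n ^ 3

theorem st_succ (n : ℕ) : st (n + 1) = st n + W n := by unfold st W; ring

theorem st_mono {m n : ℕ} (h : m ≤ n) : st m ≤ st n :=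
  Nat.mul_le_mul_left _ (Nat.pow_le_pow_left h _)

theorem le_st (n : ℕ) : n ≤ st n := by
  have := Nat.le_self_pow (n := 3) (by norm_num) n
  unfold st; omega

def num (l : Str) : ℕ := msb l.reverse 0

@[simp] theorem num_bits (n : ℕ) : num n.bits = n := msb_reverse_bits n

def cd (n Y Z : ℕ) : Str := pair (rep n) (pair Y.bits Z.bits)

/-- the function with key `k` -/
def fk (k x : Str) : Str :=
  if num (fstP k) = 0 then pair (rep x.length) (pair x []) else
    cd x.length (pw (num (fstP (sndP k))) (msb x 0) (num (fstP k)))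
      (pw (num (fstP (sndP (sndP k)))) (msb x 0) (num (fstP k)))

theorem fst_fk (k x : Str) : (fstP (fk k x)).length = x.length := by
  unfold fk cd; split_ifs <;> simp

theorem lt_fk (k x : Str) : x.length < (fk k x).length := by
  unfold fk cd; split_ifs <;> simp only [length_pair, length_rep] <;> omega

def Val (n : ℕ) (k : Str) : Prop :=
  k.length = W n ∧ ∀ x y : Str, x.length = n → y.length = n → fk k x = fk k y → x = y

theorem fk_rep (n : ℕ) (x : Str) : fk (rep (W n)) x = pair (rep x.length) (pair x []) := by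
  have : rep (W n) = pair [] (rep (9 * n ^ 2 + 9 * n + 2)) := rfl
  rw [fk, this, fstP_pair, if_pos (show num [] = 0 from rfl)]

theorem val_rep (n : ℕ) : Val n (rep (W n)) :=
  ⟨length_rep _, fun x y _ _ h => by
    rw [fk_rep, fk_rep] at h
    exact (pair_inj.1 (pair_inj.1 h).2).1⟩

def cat (κ : ℕ → Str) (S : ℕ) : Str := ((List.range S).map κ).flatten

def bt (κ : ℕ → Str) : ℕ → Bool := fun j => (cat κ (j + 1)).getD j false

def kf (B : Str) (n : ℕ) : Str := (B.drop (st n)).take (W n)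

def ff (κ : ℕ → Str) (x : Str) : Str := fk (κ x.length) x

theorem cat_succ (κ : ℕ → Str) (S : ℕ) : cat κ (S + 1) = cat κ S ++ κ S := by
  simp [cat, List.range_succ]

theorem bt_congr {κ κ' : ℕ → Str} {j : ℕ} (h : ∀ n ≤ j, κ' n = κ n) : bt κ' j = bt κ j := by
  unfold bt cat
  rw [List.map_congr_left fun n hn => h n (Nat.lt_succ_iff.1 (List.mem_range.1 hn))]

section
variable {κ : ℕ → Str} (hκ : ∀ n, Val n (κ n))
include hκ

theorem length_cat (S : ℕ) : (cat κ S).length = st S := by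
  induction S with
  | zero => rfl
  | succ S ih => rw [cat_succ, List.length_append, ih, (hκ S).1, st_succ]

theorem getD_cat {S S' j : ℕ} (h : S ≤ S') (hj : j < st S) :
    (cat κ S').getD j false = (cat κ S).getD j false := by
  induction S', h using Nat.le_induction with
  | base => rfl
  | succ S' h ih =>
    rw [cat_succ, List.getD_append _ _ _ _ (by rw [length_cat hκ]; exact hj.trans_le (st_mono h)),
      ih]

theorem pre_bt (S : ℕ) : pre (bt κ) (st S) = cat κ S := by
  refine List.ext_getElem (by simp [length_cat hκ]) fun j h1 h2 => ?_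
  rw [length_pre] at h1
  have h3 := getD_cat hκ (le_max_left S (j + 1)) h1
  rw [getD_cat hκ (le_max_right S (j + 1)) (le_st _), List.getD_eq_getElem _ _ h2] at h3
  simpa [pre, bt] using h3

theorem kf_pre {n L : ℕ} (h : st (n + 1) ≤ L) : kf (pre (bt κ) L) n = κ n := by
  rw [kf, List.take_drop, ← st_succ, take_pre h, pre_bt hκ, cat_succ,
    List.drop_left' (length_cat hκ n)]

theorem ff_inj : Function.Injective (ff κ) := fun x y h => by
  have h1 : x.length = y.length := (fst_fk (κ x.length) x).symm.trans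
    ((congrArg (fun u => (fstP u).length) h).trans (fst_fk (κ y.length) y))
  exact (hκ x.length).2 x y rfl h1.symm (by rw [ff, ff, ← h1] at h; exact h)

end

section
variable {α : Type} [Enc α]

@[fun_prop] theorem pt_num {l : α → Str} (h : PT l) : PT fun a => num (l a) := by
  unfold num; fun_prop

theorem pt_cd {l : α → Str} {Y Z : α → ℕ} (hl : PT l) (hY : PT Y) (hZ : PT Z) :
    PT fun a => cd (l a).length (Y a) (Z a) :=
  pt_pair (pt_repl hl) (by fun_prop)

@[fun_prop] theorem pt_fk {k x : α → Str} (hk : PT k) (hx : PT x) : PT fun a => fk (k a) (x a) :=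
  PTP.ite (PTP.eq (by fun_prop) (PT.const 0)) (pt_pair (pt_repl hx) (by fun_prop))
    (pt_cd hx (by fun_prop) (by fun_prop))

theorem pt_W {n : α → ℕ} (hn : PT n) : PT fun a => W (n a) := by
  have := PT.pow hn (PT.const 2) (PB.const 2)
  unfold W; fun_prop

theorem ps_W {n : α → ℕ} (hn : PS n) : PS fun a => W (n a) :=
  (((PB.const 9).mul (hn.pow 2)).add ((PB.const 9).mul hn)).add (PB.const 3)

@[fun_prop] theorem pt_kf {B : α → Str} {n : α → ℕ} (hB : PT B) (hn : PT n) :
    PT fun a => kf (B a) (n a) :=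
  PT.take (pt_W hn) (PT.drop (PT.mul (PT.const 3) (PT.pow hn (PT.const 3) (PB.const 3))) hB)

end

theorem A_complete {κ : ℕ → Str} (hκ : ∀ n, Val n (κ n)) :
    Complete (ora (tal (bt κ))) (ff κ '' Kset (bt κ)) := by
  constructor
  · refine inEXP_pre (R := fun a => ∃ t < a.2.length, (AC.str t).length ≤ a.1.length ∧
      fk (kf a.2 (AC.str t).length) (AC.str t) = a.1 ∧ KP (AC.str t) a.2)
      (PTP.bex (by fun_prop) (ps_length (by fun_prop)) ((PTP.le (by fun_prop) (by fun_prop)).and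
        ((PTP.eq (by fun_prop) (by fun_prop)).and (ptp_KP (by fun_prop) (by fun_prop)))))
      (3 * (Polynomial.X + 1) ^ 3) fun y => ?_
    have h0 : (3 * (Polynomial.X + 1) ^ 3 : Polynomial ℕ).eval y.length = st (y.length + 1) := by
      simp [st]
    have h1 : ∀ x : Str, x.length ≤ y.length → st (x.length + 1) ≤ 2 ^ st (y.length + 1) ∧
        2 ^ (x.length * x.length + x.length) ≤ 2 ^ st (y.length + 1) := fun x hx =>
      ⟨(st_mono (by omega)).trans Nat.lt_two_pow_self.le, Nat.pow_le_pow_right two_pos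
        (le_trans (by unfold st; nlinarith [Nat.zero_le (x.length ^ 3)])
          (st_mono (m := x.length + 1) (by omega)))⟩
    simp only [h0, length_pre]
    constructor
    · rintro ⟨x, hx, rfl⟩
      have h2 : x.length ≤ (ff κ x).length := (lt_fk _ _).le
      refine ⟨AC.idx x, (AC.idx_lt x).trans_le (Nat.pow_le_pow_right two_pos
        (le_trans (by omega) (le_st _))), ?_⟩
      rw [AC.str_idx, kf_pre hκ (h1 x h2).1, KP_pre (h1 x h2).2]
      exact ⟨h2, rfl, hx⟩
    · rintro ⟨t, -, h2, h3, h4⟩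
      rw [kf_pre hκ (h1 _ h2).1] at h3
      exact ⟨_, (KP_pre (h1 _ h2).2).1 h4, h3⟩
  · intro L hL
    obtain ⟨r, h1, h2⟩ := K_hard hL
    obtain ⟨p, hp⟩ := ((PB.const 3).mul (((pb_of_pt h1).add (PB.const 1)).pow 3))
    have h3 := fp_pre (bt κ) (F := fun a => fk (kf a.2 (r a.1).length) (r a.1)) (by fun_prop) p
    refine ⟨_, h3, fun x => ?_⟩
    simp only
    rw [kf_pre hκ (hp x), h2]
    exact ((ff_inj hκ).mem_set_image).symm

theorem fp_ff {κ : ℕ → Str} (hκ : ∀ n, Val n (κ n)) : FP (ora (tal (bt κ))) (ff κ) := by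
  have h := fp_pre (bt κ) (F := fun a => fk (kf a.2 a.1.length) a.1) (by fun_prop)
    (3 * (Polynomial.X + 1) ^ 3)
  refine (funext fun x => ?_ : _ = ff κ) ▸ h
  simp only
  rw [kf_pre hκ (by simp [st]), ff]

/-- the first machine embeds all strings into the range of the keyed function, the second
inverts the first -/
def Works (i : Mach × Mach × Str) (κ : ℕ → Str) : Prop :=
  ∀ z, run i.2.1 (tal (bt κ)) (run i.1 (tal (bt κ)) (i.2.2 ++ z)) = i.2.2 ++ z ∧
    ∃ x, ff κ x = run i.1 (tal (bt κ)) (i.2.2 ++ z)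

theorem works_of_iso {κ : ℕ → Str}
    (h : Iso (ora (tal (bt κ))) (Kset (bt κ)) (ff κ '' Kset (bt κ))) : ∃ i, Works i κ := by
  obtain ⟨g, ⟨h1, h2⟩, h3⟩ := h
  obtain ⟨M, e⟩ := fp_iff.1 h1
  obtain ⟨M', e'⟩ := fp_iff.1 h3
  obtain ⟨u, hu⟩ := K_cyl
  refine ⟨(M, M', u), fun z => ?_⟩
  simp only [← e, ← e']
  obtain ⟨x, -, hx⟩ := (h2 _).1 (hu _ z)
  exact ⟨g.symm_apply_apply _, x, hx⟩

theorem works_open (i : Mach × Mach × Str) (κ : ℕ → Str) (h : ¬ Works i κ) :
    ∃ L, ∀ κ' : ℕ → Str, (∀ n < L, κ' n = κ n) → ¬ Works i κ' := by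
  obtain ⟨p, hp⟩ := run_loc i.1
  obtain ⟨q, hq⟩ := run_loc i.2.1
  obtain ⟨z, hz⟩ := not_forall.1 h
  set y := run i.1 (tal (bt κ)) (i.2.2 ++ z) with hy
  refine ⟨p.eval (i.2.2 ++ z).length + q.eval y.length + y.length, fun κ' e H => hz ?_⟩
  obtain ⟨h1, x, h2⟩ := H z
  rw [(hp _).2 (bt κ) _ fun j hj => bt_congr fun n hn => e n (by omega), ← hy] at h1 h2
  rw [(hq _).2 (bt κ) _ fun j hj => bt_congr fun n hn => e n (by omega)] at h1
  have h3 := lt_fk (κ' x.length) x
  refine ⟨h1, x, ?_⟩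
  rw [← h2, ff, ff, e _ (by rw [← h2, ff]; omega)]

theorem one_pair (h : ∀ κ, (∀ n, Val n (κ n)) → ∃ i, Works i κ) :
    ∃ (i : Mach × Mach × Str) (κ₀ : ℕ → Str) (L : ℕ), (∀ n, Val n (κ₀ n)) ∧
      ∀ κ, (∀ n, Val n (κ n)) → (∀ n < L, κ n = κ₀ n) → Works i κ :=
  baire Val (fun n => ⟨_, val_rep n⟩) Works
    (fun i κ _ hn => let ⟨L, hL⟩ := works_open i κ hn; ⟨L, fun κ' _ => hL κ'⟩) h

end Pool.Agent.P.MP_7a71fe_lc.TD
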