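import Pool.Agent.P.MP_7a71fe_lc.TD.Alg

/-!
Assembly.
-/

namespace Pool.Agent.P.MP_7a71fe_lc.TD

open Pool.Agent.P.MP_d7de43_lc Polynomial
open Pool.Agent.Lib.Helper47 hiding fstP sndP
open Pool.Agent.P.MP_ba7db8_lc (PTP ps_fst)

theorem exists_short : ∃ q : ℕ[X], ∀ k x : Str, k.length = W x.length →
    (fk k x).length ≤ q.eval x.length := by
  obtain ⟨p, hp⟩ := ps_length (pt_fk (α := Str × Str) (PT.fst PT.id) (PT.snd PT.id))
  refine ⟨p.comp (4 * (9 * X ^ 2 + 9 * X + 3) + 4 * X + 3), fun k x h => (hp (k, x)).trans ?_⟩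
  have h1 := size_bits_le k
  have h2 := size_bits_le x
  rw [eval_comp]
  refine eval_mono p ?_
  simp only [size_pair, eval_add, eval_mul, eval_pow, eval_X, eval_ofNat]
  rw [h, W] at h1
  omega

/-- the test with the keys made from `N`, `c`, `t` -/
def Rr (i : Mach × Mach × Str) (κ₀ : ℕ → Str) (n₀ N c s l t : ℕ) (z : Str) : Prop :=
  Acc (run i.1 (tal (bt (kap κ₀ n₀ N c t s)))) (run i.2.1 (tal (bt (kap κ₀ n₀ N c t s)))) N t s l
    (i.2.2 ++ z)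

theorem ptp_Rr {α : Type} [Enc α] (i : Mach × Mach × Str) (κ₀ : ℕ → Str) (n₀ : ℕ)
    {N c s l t : α → ℕ} {z : α → Str} (hN : PT N) (hc : PT c) (hs : PT s) (hl : PT l) (ht : PT t)
    (hz : PT z) : PTP fun a => Rr i κ₀ n₀ (N a) (c a) (s a) (l a) (t a) (z a) :=
  ptp_Acc i.1 i.2.1 (b := fun a => tal (bt (kap κ₀ n₀ (N a) (c a) (t a) (s a))))
    (pt_orc κ₀ n₀ hN hc ht hs) hN ht hs hl (PT.append (PT.const _) hz)

open Classical in
theorem exists_alg (i : Mach × Mach × Str) (κ₀ : ℕ → Str) (n₀ : ℕ) (sp lp mp : ℕ[X]) :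
    ∃ M, InFP M ∧ ∀ (N c : ℕ) (w : Str), M (pair (pair N.bits c.bits) w) = [true] ↔
      Rr i κ₀ n₀ N c (sp.eval N.size) (lp.eval N.size) (msb (w.drop (mp.eval N.size)) 0)
        (w.take (mp.eval N.size)) := by
  have hN : PT fun v : Str => num (fstP (fstP v)) := by fun_prop
  have hk : ∀ p : ℕ[X], PT fun v : Str => p.eval (num (fstP (fstP v))).size := fun p =>
    pt_eval p (MP_ba7db8_lc.pt_size hN)
  have hR := ptp_Rr i κ₀ n₀ hN (pt_num (pt_sndP (pt_fstP PT.id))) (hk sp) (hk lp)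
    (PT.msb (PT.drop (hk mp) (pt_sndP PT.id)) (PT.const 0)) (PT.take (hk mp) (pt_sndP PT.id))
  refine ⟨_, inFP_of_pt (PT.cons hR.dec (PT.const [])), fun N c w => ?_⟩
  simp only [fstP_pair, sndP_pair, num_bits, List.cons.injEq, and_true, decide_eq_true_eq]

open Classical in
theorem rr_no (i : Mach × Mach × Str) (κ₀ : ℕ → Str) (n₀ : ℕ) {N r s l j : ℕ} (hN : 2 < N)
    (hc : N.Coprime N.totient) (hr : r.Coprime N) (h1 : s + 1 ≤ 2 ^ j)
    (hj : l + N.size + 5 ≤ j) {P : Str → Prop}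
    (hP : ∀ w, P w → Rr i κ₀ n₀ N (enc N s 0 r) s l (msb (w.drop (2 * j)) 0) (w.take (2 * j))) :
    2 * cnt (2 * j + (N.size + 3)) P ≤ 2 ^ (2 * j + (N.size + 3)) := by
  have h2 : N < 2 ^ N.size := Nat.lt_size_self N
  have h3 : 2 ^ (l + 1) * 16 ≤ 2 ^ j := by
    rw [show 16 = 2 ^ 4 from rfl, ← pow_add]; exact Nat.pow_le_pow_right two_pos (by omega)
  have h4 : 2 ^ N.size * 32 ≤ 2 ^ j := by
    rw [show 32 = 2 ^ 5 from rfl, ← pow_add]; exact Nat.pow_le_pow_right two_pos (by omega)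
  have h5 := Nat.mul_le_mul h1 (show N * 32 ≤ 2 ^ j by omega)
  have h6 : 12 * (2 ^ (l + 1) + (s + 1) * N) ≤ 2 ^ (2 * j) := by
    have h7 := Nat.mul_le_mul_left (2 ^ j) (show 32 ≤ 2 ^ j by omega)
    rw [two_mul, pow_add 2 j]
    nlinarith
  have h7 := count_no (u := i.2.2) (L := N.size + 3)
    (G := fun t => run i.1 (tal (bt (kap κ₀ n₀ N (enc N s 0 r) t s))))
    (D := fun t => run i.2.1 (tal (bt (kap κ₀ n₀ N (enc N s 0 r) t s)))) hN hc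
    (fun t => by simp only [kap_per (by omega : 0 < N) (enc_zero hr s)]) h6
    (by rw [pow_add]; omega)
  exact (Nat.mul_le_mul_left 2 (cnt_le _ _ _
    (fun a => Rr i κ₀ n₀ N (enc N s 0 r) s l a.2 a.1) hP)).trans h7

theorem easy_of {i : Mach × Mach × Str} {κ₀ : ℕ → Str} {n₀ : ℕ} (h₀ : ∀ n, Val n (κ₀ n))
    (H : ∀ κ, (∀ n, Val n (κ n)) → (∀ n < n₀, κ n = κ₀ n) → Works i κ) : ∃ s, Easy s := by
  obtain ⟨q, hq⟩ := exists_short
  obtain ⟨o, ho⟩ := run_loc i.1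
  obtain ⟨c₀, hc₀⟩ := exists_le_two_pow (o.comp (C i.2.2.length + 2 * X) + 1)
  obtain ⟨lp, e4⟩ : ∃ lp : ℕ[X], ∀ k, lp.eval k = q.eval (k + n₀) :=
    ⟨q.comp (X + C n₀), fun k => by simp [eval_comp]⟩
  obtain ⟨jp, e2⟩ : ∃ jp : ℕ[X], ∀ k, jp.eval k = lp.eval k + k + c₀ + 5 :=
    ⟨lp + X + C c₀ + 5, fun k => by simp⟩
  obtain ⟨sp, e3⟩ : ∃ sp : ℕ[X], ∀ k, sp.eval k = o.eval (i.2.2.length + 2 * jp.eval k) :=
    ⟨o.comp (C i.2.2.length + 2 * jp), fun k => by simp [eval_comp]⟩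
  obtain ⟨M, hM, h⟩ := exists_alg i κ₀ n₀ sp lp (2 * jp)
  refine ⟨sp, M, 2 * jp + (X + 3), hM, fun N r hN hc hr => ?_⟩
  have e1 : (2 * jp + (X + 3)).eval N.size = 2 * jp.eval N.size + (N.size + 3) := by simp
  have e5 : (2 * jp).eval N.size = 2 * jp.eval N.size := by simp
  rw [acc, acc, e1]
  constructor
  · refine cnt_all _ _ fun w hw => (h _ _ _).2 ?_
    have hκ := val_kap h₀ hN hc hr n₀ (msb (w.drop ((2 * jp).eval N.size)) 0) (sp.eval N.size)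
    refine acc_yes hN hr hκ (H _ hκ fun n hn => if_pos hn)
      (fun k x h1 h2 => (hq k x h1).trans (e4 _ ▸ eval_mono q h2.le)) fun b => ?_
    rw [e3]
    exact ((ho _).1 b).trans (eval_mono o (by simp))
  · have h1 := hc₀ (jp.eval N.size) (by rw [e2]; omega)
    simp only [eval_add, eval_comp, eval_C, eval_mul, eval_ofNat, eval_X, eval_one, ← e3] at h1
    exact rr_no i κ₀ n₀ (l := lp.eval N.size) hN hc hr h1 (by rw [e2]; omega)
      fun w hw => e5 ▸ (h _ _ _).1 hw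

theorem main (h : ∀ s, ¬ Easy s) : ∃ T, Tally T ∧ ∃ f, FP T f ∧ OneLi f ∧
    (∀ g d, FP T g → FP T d → (∀ z, d (g z) = z) → ∃ z, g z ∉ Set.range f) ∧
    ∃ A, Complete T A ∧ Complete T (f '' A) ∧ ¬ Iso T A (f '' A) := by
  obtain ⟨κ, hκ, H⟩ : ∃ κ, (∀ n, Val n (κ n)) ∧ ∀ i, ¬ Works i κ := by
    by_contra H
    push Not at H
    obtain ⟨i, κ₀, n₀, h1, h2⟩ := one_pair H
    obtain ⟨s, hs⟩ := easy_of h1 h2
    exact h s hs
  refine ⟨_, tally_tal (bt κ), ff κ, fp_ff hκ, ⟨ff_inj hκ, fun x => lt_fk _ x⟩,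
    fun g d hg hd e => ?_, _, K_complete _, A_complete hκ,
    fun hI => let ⟨i, hi⟩ := works_of_iso hI; H i hi⟩
  obtain ⟨M, rfl⟩ := fp_iff.1 hg
  obtain ⟨M', rfl⟩ := fp_iff.1 hd
  by_contra H'
  push Not at H'
  exact H (M, M', []) fun z => ⟨e _, H' _⟩

end Pool.Agent.P.MP_7a71fe_lc.TD
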