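import Pool.Agent.P.MP_7a71fe_lc.TD.Defs

/-!
Arithmetic modulo powers of `N`, a category lemma and a counting lemma.
-/

namespace Pool.Agent.P.MP_7a71fe_lc.TD

theorem lift_pow {N a b : ℕ} (h : a ≡ b [MOD N]) (n : ℕ) :
    a ^ N ^ n ≡ b ^ N ^ n [MOD N ^ (n + 1)] := by
  have h1 := dvd_sub_pow_of_dvd_sub (R := ℤ) (p := N) (Nat.modEq_iff_dvd.1 h) n
  rw [Nat.modEq_iff_dvd]
  push_cast
  exact h1

theorem binom3 (a : ℤ) (k : ℕ) :
    ∃ b : ℤ, (1 + a) ^ k = 1 + k * a + (k.choose 2 : ℕ) * a ^ 2 + a ^ 3 * b := by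
  induction k with
  | zero => exact ⟨0, by simp⟩
  | succ k ih =>
    obtain ⟨b, hb⟩ := ih
    refine ⟨(k.choose 2 : ℕ) + b + a * b, ?_⟩
    rw [pow_succ, hb, Nat.choose_succ_succ' k 1, Nat.choose_one_right]
    push_cast
    ring

theorem one_add_pow {N : ℕ} (hN : Odd N) (j : ℕ) :
    ∃ b : ℤ, (1 + (N : ℤ)) ^ N ^ j = 1 + N ^ (j + 1) * (1 + N * b) := by
  induction j with
  | zero => exact ⟨0, by simp⟩
  | succ j ih =>
    obtain ⟨b, hb⟩ := ih
    obtain ⟨i, hi⟩ := hN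
    have h2 : N.choose 2 = N * i := by
      rw [Nat.choose_two_right, hi, Nat.add_sub_cancel, mul_left_comm, Nat.mul_div_cancel_left _ two_pos]
    obtain ⟨d, hd⟩ := binom3 ((N : ℤ) ^ (j + 1) * (1 + N * b)) N
    refine ⟨b + i * N ^ j * (1 + N * b) ^ 2 + N ^ (2 * j) * (1 + N * b) ^ 3 * d, ?_⟩
    rw [pow_succ N j, pow_mul, hb, hd, h2]
    push_cast
    ring

theorem ord_one_add {N : ℕ} (hN : Odd N) (n : ℕ) :
    ∀ k : ℕ, (1 + N) ^ k ≡ 1 [MOD N ^ (n + 1)] → N ^ n ∣ k := by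
  induction n with
  | zero => intro k _; simp
  | succ n ih =>
    intro k hk
    obtain ⟨i, rfl⟩ := ih k (hk.of_dvd (pow_dvd_pow _ (Nat.le_succ _)))
    obtain ⟨b, hb⟩ := one_add_pow hN n
    obtain ⟨d, hd⟩ := binom3 ((N : ℤ) ^ (n + 1) * (1 + N * b)) i
    obtain ⟨g, hg⟩ := Nat.modEq_iff_dvd.1 hk.symm
    push_cast at hg
    rw [pow_mul, hb, hd] at hg
    have h0 : (N : ℤ) ^ (n + 1) ≠ 0 := pow_ne_zero _ (by exact_mod_cast hN.pos.ne')
    have h1 : (i : ℤ) = N * (g - i * b - (i.choose 2 : ℕ) * N ^ n * (1 + N * b) ^ 2 -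
        N ^ (2 * n + 1) * (1 + N * b) ^ 3 * d) :=
      mul_left_cancel₀ h0 (by linear_combination hg)
    rw [pow_succ]
    exact Nat.mul_dvd_mul_left _ (Int.natCast_dvd_natCast.1 ⟨_, h1⟩)

theorem odd_of {N : ℕ} (h : 2 < N) (hc : N.Coprime N.totient) : Odd N :=
  Nat.coprime_two_right.1 (hc.coprime_dvd_right (Nat.totient_even h).two_dvd)

theorem pow_tot {N r : ℕ} (hr : r.Coprime N) (s : ℕ) :
    (r ^ N ^ s) ^ N.totient ≡ 1 [MOD N ^ (s + 1)] := by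
  have h := lift_pow (Nat.ModEq.pow_totient hr) s
  rwa [one_pow, ← pow_mul, mul_comm, pow_mul] at h

theorem enc_zero {N r : ℕ} (hr : r.Coprime N) (s : ℕ) :
    enc N s 0 r ^ N.totient ≡ 1 [MOD N ^ (s + 1)] := by
  rw [enc, pow_zero, one_mul]
  exact ((Nat.mod_modEq _ _).pow _).trans (pow_tot hr s)

theorem enc_cop {N r : ℕ} (hr : r.Coprime N) (s m : ℕ) : (enc N s m r).Coprime N := by
  have h1 : enc N s m r ≡ (1 + N) ^ m * r ^ N ^ s [MOD N] :=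
    (Nat.mod_modEq _ _).of_dvd (dvd_pow_self _ s.succ_ne_zero)
  rw [Nat.Coprime, h1.gcd_eq]
  exact Nat.Coprime.mul_left (Nat.Coprime.pow_left _ (by simp)) (hr.pow_left _)

theorem enc_inj {N r s n v v' : ℕ} (h : 2 < N) (hc : N.Coprime N.totient) (hr : r.Coprime N)
    (hn : n ≤ s) (hv : v < 2 ^ n) (hv' : v' < 2 ^ n)
    (e : enc N s 1 r ^ v ≡ enc N s 1 r ^ v' [MOD N ^ (n + 1)]) : v = v' := by
  wlog hle : v ≤ v' generalizing v v'
  · exact (this hv' hv e.symm (by omega)).symm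
  obtain ⟨d, rfl⟩ := Nat.exists_eq_add_of_le hle
  have hd : N ^ (n + 1) ∣ N ^ (s + 1) := pow_dvd_pow _ (by omega)
  have h1 : enc N s 1 r ^ d ≡ 1 [MOD N ^ (n + 1)] := by
    refine Nat.ModEq.cancel_left_of_coprime (c := enc N s 1 r ^ v) ?_ ?_
    · exact ((enc_cop hr s 1).symm.pow _ _)
    · rw [← pow_add, mul_one]; exact e.symm
  have h2 : enc N s 1 r ≡ (1 + N) * r ^ N ^ s [MOD N ^ (n + 1)] := by
    rw [enc, pow_one]; exact (Nat.mod_modEq _ _).of_dvd hd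
  have h3 := ((h2.pow d).symm.trans h1).pow N.totient
  rw [one_pow, mul_pow, mul_pow, ← pow_mul, ← pow_mul (r ^ N ^ s), mul_comm d N.totient,
    pow_mul (r ^ N ^ s)] at h3
  have h4 := (((pow_tot hr s).of_dvd hd).pow d).mul_left ((1 + N) ^ (N.totient * d))
  rw [one_pow, mul_one] at h4
  have h5 := (hc.pow_left n).dvd_of_dvd_mul_left (ord_one_add (odd_of h hc) n _ (h4.symm.trans h3))
  have h6 : 2 ^ n ≤ N ^ n := Nat.pow_le_pow_left h.le n
  have := Nat.eq_zero_of_dvd_of_lt h5 (by omega)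
  omega

theorem root_uniq {N e n a b : ℕ} (hN : 0 < N) (he : 0 < e) (hc : N.Coprime e) (ha : a ^ e ≡ 1 [MOD N ^ (n + 1)])
    (hb : b ^ e ≡ 1 [MOD N ^ (n + 1)]) (h : a ≡ b [MOD N]) : a ≡ b [MOD N ^ (n + 1)] := by
  obtain ⟨i, j, hij⟩ : ∃ i j, N ^ n * i = 1 + e * j := by
    have h1 := Nat.ModEq.pow_totient (hc.pow_left n)
    have h2 : 0 < e.totient := Nat.totient_pos.2 he
    have h0 : 0 < N ^ n := Nat.pow_pos hN
    obtain ⟨j, hj⟩ := (Nat.modEq_iff_dvd' (Nat.one_le_pow _ _ h0)).1 h1.symm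
    refine ⟨(N ^ n) ^ (e.totient - 1), j, ?_⟩
    have := Nat.one_le_pow e.totient _ h0
    rw [← pow_succ', Nat.sub_add_cancel h2]
    omega
  have key : ∀ x : ℕ, x ^ e ≡ 1 [MOD N ^ (n + 1)] → (x ^ N ^ n) ^ i ≡ x [MOD N ^ (n + 1)] :=
    fun x hx => by
      rw [← pow_mul, hij, pow_add x, pow_one, pow_mul]
      simpa using (hx.pow j).mul_left x
  exact (key a ha).symm.trans (((lift_pow h n).pow i).trans (key b hb))

theorem baire {α ι : Type} [Countable ι] (V : ℕ → α → Prop) (hV : ∀ n, ∃ a, V n a)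
    (W : ι → (ℕ → α) → Prop)
    (hop : ∀ i κ, (∀ n, V n (κ n)) → ¬ W i κ →
      ∃ L, ∀ κ', (∀ n, V n (κ' n)) → (∀ n < L, κ' n = κ n) → ¬ W i κ')
    (hcov : ∀ κ, (∀ n, V n (κ n)) → ∃ i, W i κ) :
    ∃ (i : ι) (κ₀ : ℕ → α) (L : ℕ), (∀ n, V n (κ₀ n)) ∧
      ∀ κ, (∀ n, V n (κ n)) → (∀ n < L, κ n = κ₀ n) → W i κ := by
  by_contra H
  push Not at H
  have step : ∀ (i : ι) (s : {κ : ℕ → α // ∀ n, V n (κ n)} × ℕ),
      ∃ s' : {κ : ℕ → α // ∀ n, V n (κ n)} × ℕ, s.2 < s'.2 ∧ (∀ n < s.2, s'.1.1 n = s.1.1 n) ∧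
        ∀ κ', (∀ n, V n (κ' n)) → (∀ n < s'.2, κ' n = s'.1.1 n) → ¬ W i κ' := fun i s => by
    obtain ⟨κ, h1, h2, h3⟩ := H i s.1.1 s.2 s.1.2
    obtain ⟨L, hL⟩ := hop i κ h1 h3
    exact ⟨(⟨κ, h1⟩, s.2 + L + 1), by simp only; omega, h2,
      fun κ' h4 h5 => hL κ' h4 fun n hn => h5 n (by simp only; omega)⟩
  choose F hF using step
  choose d hd using hV
  obtain ⟨i₀, -⟩ := hcov d hd
  have : Nonempty ι := ⟨i₀⟩
  obtain ⟨e, he⟩ := exists_surjective_nat ι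
  let s : ℕ → {κ : ℕ → α // ∀ n, V n (κ n)} × ℕ := fun j =>
    Nat.rec (⟨d, hd⟩, 0) (fun j t => F (e j) t) j
  have hs : ∀ j, s (j + 1) = F (e j) (s j) := fun _ => rfl
  have h1 : ∀ j, j ≤ (s j).2 := fun j => by
    induction j with
    | zero => exact Nat.zero_le _
    | succ j ih => rw [hs]; exact (hF _ _).1.trans_le' ih
  have h2 : ∀ j k, j ≤ k → (s j).2 ≤ (s k).2 ∧ ∀ n < (s j).2, (s k).1.1 n = (s j).1.1 n := by
    intro j k hk
    induction k, hk using Nat.le_induction with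
    | base => exact ⟨le_rfl, fun _ _ => rfl⟩
    | succ k _ ih =>
      rw [hs]
      exact ⟨ih.1.trans (hF _ _).1.le, fun n hn =>
        ((hF _ _).2.1 n (hn.trans_le ih.1)).trans (ih.2 n hn)⟩
  obtain ⟨i, hi⟩ := hcov (fun n => (s (n + 1)).1.1 n) fun n => (s (n + 1)).1.2 n
  obtain ⟨j, rfl⟩ := he i
  refine (hF (e j) (s j)).2.2 _ (fun n => (s (n + 1)).1.2 n) (fun n hn => ?_) hi
  rw [← hs] at hn ⊢
  exact ((h2 _ _ (le_max_left (n + 1) (j + 1))).2 n (h1 _)).symm.trans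
    ((h2 _ _ (le_max_right (n + 1) (j + 1))).2 n hn)

open Finset in
theorem shift3 {S : Finset ℕ} {L e : ℕ} (hS : ∀ t ∈ S, t < L)
    (h : ∀ t ∈ S, t + e ∉ S ∧ t + 2 * e ∉ S) : 3 * S.card ≤ L + 2 * e := by
  have c1 : (S.image (· + e)).card = S.card := card_image_of_injective _ (add_left_injective e)
  have c2 : (S.image (· + 2 * e)).card = S.card :=
    card_image_of_injective _ (add_left_injective _)
  have d1 : Disjoint S (S.image (· + e)) := disjoint_left.2 fun t ht h' => by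
    obtain ⟨u, hu, rfl⟩ := mem_image.1 h'
    exact (h u hu).1 ht
  have d2 : Disjoint (S ∪ S.image (· + e)) (S.image (· + 2 * e)) := disjoint_left.2 fun t ht h' => by
    obtain ⟨u, hu, rfl⟩ := mem_image.1 h'
    rcases mem_union.1 ht with ht | ht
    · exact (h u hu).2 ht
    · obtain ⟨v, hv, e'⟩ := mem_image.1 ht
      exact (h u hu).1 ((by omega : v = u + e) ▸ hv)
  have h3 : S ∪ S.image (· + e) ∪ S.image (· + 2 * e) ⊆ range (L + 2 * e) := fun t ht => by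
    simp only [mem_union, mem_image, mem_range] at ht ⊢
    rcases ht with (ht | ⟨u, hu, rfl⟩) | ⟨u, hu, rfl⟩
    · have := hS t ht; omega
    · have := hS u hu; omega
    · have := hS u hu; omega
  have := card_le_card h3
  rw [card_union_of_disjoint d2, card_union_of_disjoint d1, c1, c2, card_range] at this
  omega

end Pool.Agent.P.MP_7a71fe_lc.TD
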