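import Pool.Agent.P.MP_7a71fe_lc.Cert
import Pool.Agent.P.MP_7a71fe_lc.AC.Link
import Pool.Agent.P.MP_d7de43_lc.Slp
import Pool.Agent.P.MP_7a71fe_lc.TD.NT

/-!
Tally oracles, their simulation from initial segments, and a complete set.
-/

namespace Pool.Agent.P.MP_7a71fe_lc.TD

open Pool.Agent.P.MP_d7de43_lc
open Pool.Agent.Lib.Helper47 hiding fstP sndP
open Pool.Agent.P.MP_ba7db8_lc (PTP ps_fst)

def rep (n : ℕ) : Str := List.replicate n false

@[simp] theorem length_rep (n : ℕ) : (rep n).length = n := List.length_replicate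

def tal (β : ℕ → Bool) : Ora := fun y => y.all (fun b => !b) && β y.length

def pre (β : ℕ → Bool) (L : ℕ) : Str := (List.range L).map β

def bs (B : Str) : ℕ → Bool := fun j => B.getD j false

@[simp] theorem length_pre (β : ℕ → Bool) (L : ℕ) : (pre β L).length = L := by simp [pre]

theorem tally_tal (β : ℕ → Bool) : Tally (ora (tal β)) := fun y hy b hb => by
  simp only [ora, tal, Set.mem_ofPred_eq, Bool.and_eq_true, List.all_eq_true] at hy
  simpa using hy.1 b hb

theorem tal_rep (β : ℕ → Bool) (n : ℕ) : tal β (rep n) = β n := by simp [tal, rep]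

theorem bs_pre {β : ℕ → Bool} {L j : ℕ} (h : j < L) : bs (pre β L) j = β j := by
  simp [bs, pre, List.getD_eq_getElem?_getD, h]

theorem take_pre {β : ℕ → Bool} {L k : ℕ} (h : k ≤ L) : (pre β L).take k = pre β k := by
  rw [pre, ← List.map_take, List.take_range, min_eq_left h, pre]

theorem loop_pre (β : ℕ → Bool) (k : ℕ) : loop (fun l => β l.length) k = pre β k := by
  induction k with
  | zero => rfl
  | succ k ih => rw [loop_succ, length_loop, ih, pre, pre, List.range_succ, List.map_append]; rfl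

section
variable {α γ : Type} [Enc α] [Enc γ]

theorem pt_rep {n : α → ℕ} (hn : PT n) (hb : PS n) : PT fun a => rep (n a) :=
  PT.replicate hn hb (PT.const _)

theorem pt_repl {l : α → Str} (hl : PT l) : PT fun a => rep (l a).length :=
  pt_rep (PT.length hl) (ps_length hl)

theorem pt_rmap {n : α → ℕ} {g : α → ℕ → γ} (hn : PT n) (hb : PS n)
    (hg : PT fun y : α × ℕ => g y.1 (min y.2 (n y.1))) :
    PT fun a => (List.range (n a)).map (g a) :=
  (PT.map (g := fun a i => g a (min i (n a))) hg (PT.range hn hb)).of_eq fun _ =>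
    List.map_congr_left fun _ hi => by rw [min_eq_left (List.mem_range.1 hi).le]

theorem pt_tal {β : α → ℕ → Bool} (h : PT fun p : α × Str => β p.1 p.2.length) :
    PT fun p : α × Str => tal (β p.1) p.2 :=
  PT.and (PT.all (g := fun _ b => !b) (by fun_prop) (by fun_prop)) h

theorem pt_run (M : Mach) {b : α → Ora} {z : α → Str} (hb : PT fun p : α × Str => b p.1 p.2)
    (hz : PT z) : PT fun a => run M (b a) (z a) := by
  have hQ := pt_of_inFP M.2.1
  have hO := pt_of_inFP M.2.2
  have h1 : PT fun p : α × Str × ℕ => b p.1 (M.1.1 (pair (z p.1) p.2.1)) :=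
    hb.comp (g := fun p : α × Str × ℕ => (p.1, M.1.1 (pair (z p.1) p.2.1))) (by fun_prop)
  have h2 : PT fun a => loop (fun l => b a (M.1.1 (pair (z a) l))) (M.1.2.2.eval (z a).length) :=
    (PT.foldl_add (f := fun a (l : Str) (_ : ℕ) => l ++ [b a (M.1.1 (pair (z a) l))])
      (by fun_prop) (PT.range (pt_eval M.1.2.2 (PT.length hz)) ((ps_length hz).eval _))
      (PT.const []) (fun _ => 4) (PB.const 4) fun a t _ _ => by
        have h1 := size_append t [b a (M.1.1 (pair (z a) t))]
        have h2 := size_bool (b a (M.1.1 (pair (z a) t)))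
        simp only [size_cons, size_nil] at h1
        omega).of_eq fun a => by rw [PT.foldl_const_eq_iterate, List.length_range]; rfl
  unfold run
  fun_prop

theorem pt_runB (M : Mach) {B z : α → Str} (hB : PT B) (hz : PT z) :
    PT fun a => run M (tal (bs (B a))) (z a) :=
  pt_run M (pt_tal (β := fun a => bs (B a)) (by unfold bs; fun_prop)) hz

end

theorem run_loc (M : Mach) : ∃ p : Polynomial ℕ, ∀ z,
    (∀ b, (run M b z).length ≤ p.eval z.length) ∧ ∀ β β' : ℕ → Bool,
      (∀ j < p.eval z.length, β' j = β j) → run M (tal β') z = run M (tal β) z := by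
  obtain ⟨p, hp⟩ := pf_run M
  refine ⟨p, fun z => ⟨(hp z).2, fun β β' h => ?_⟩⟩
  obtain ⟨T, h1, h2⟩ := (hp z).1 (tal β)
  exact h2 _ fun d hd => by rw [tal, tal, h _ ((lt_wt _ hd).trans_le h1)]

theorem fp_pre (β : ℕ → Bool) {F : Str × Str → Str} (hF : PT F) (p : Polynomial ℕ) :
    FP (ora (tal β)) fun z => F (z, pre β (p.eval z.length)) := by
  refine fp_iff.2 ⟨⟨(fun y => rep (sndP y).length, fun y => F (fstP y, sndP y), p),
    inFP_of_pt (pt_repl (by fun_prop)), inFP_of_pt (by fun_prop)⟩, funext fun z => ?_⟩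
  simp only [run, fstP_pair, sndP_pair, tal_rep, loop_pre]

open Classical in
theorem inEXP_pre {β : ℕ → Bool} {L : Set Str} {R : Str × Str → Prop} (hR : PTP R)
    (p : Polynomial ℕ) (h : ∀ x, x ∈ L ↔ R (x, pre β (2 ^ p.eval x.length))) :
    InEXP (ora (tal β)) L := by
  have h1 : PT fun y : Str × Str => [decide (R (fstP y.1, y.2.take (sndP y.1).length))] :=
    PT.cons (PTP.dec (hR.comp (by fun_prop))) (PT.const [])
  refine ⟨{u | R (fstP u, pre β (sndP u).length)}, p, ⟨_, fp_pre β h1 Polynomial.X, fun u => ?_⟩,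
    fun x => by simp [h]⟩
  rw [Polynomial.eval_X, take_pre (by simp [sndP])]
  simp

/-! ### A complete set -/

def KP (y B : Str) : Prop :=
  AC.U (AC.dec (fstP y)) (pair (fstP (sndP y)) (B.take (2 ^ y.length)))
    (min (2 ^ (y.length * y.length)) B.length) = some [true]

def Kset (β : ℕ → Bool) : Set Str :=
  {y | AC.U (AC.dec (fstP y)) (pair (fstP (sndP y)) (pre β (2 ^ y.length)))
    (2 ^ (y.length * y.length)) = some [true]}

theorem ptp_KP {α : Type} [Enc α] {y B : α → Str} (hy : PT y) (hB : PT B) :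
    PTP fun a => KP (y a) (B a) := by
  have h1 := PT.pow (PT.const 2) (PT.length hy) (ps_length hy)
  have h2 := PT.pow (PT.const 2) (PT.mul (PT.length hy) (PT.length hy))
    ((ps_length hy).mul (ps_length hy))
  exact PTP.eq (AC.pt_U (by fun_prop) (by fun_prop) (by fun_prop)
    ((ps_length hB).mono fun _ => min_le_right _ _)) (PT.const _)

theorem KP_pre {β : ℕ → Bool} {y : Str} {L : ℕ} (h : 2 ^ (y.length * y.length + y.length) ≤ L) :
    KP y (pre β L) ↔ y ∈ Kset β := by
  rw [KP, take_pre ((Nat.pow_le_pow_right two_pos (by omega)).trans h), length_pre,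
    min_eq_left ((Nat.pow_le_pow_right two_pos (by omega)).trans h)]
  rfl

theorem K_univ {G : Str → Str} (hG : PT G) : ∃ (e : Str) (c : ℕ), ∀ β x w,
    c ≤ (pair e (pair x w)).length → (pair e (pair x w) ∈ Kset β ↔
      G (pair x (pre β (2 ^ (pair e (pair x w)).length))) = [true]) := by
  obtain ⟨e, p, h⟩ := AC.U_pt hG
  obtain ⟨c, hc⟩ := AC.eval_two_pow p
  refine ⟨e.enc, c + 1, fun β x w hl => ?_⟩
  have h1 : 2 * x.length + 1 ≤ (pair e.enc (pair x w)).length := by
    rw [length_pair, length_pair]; omega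
  simp only [Kset, Set.mem_ofPred_eq, fstP_pair, sndP_pair, AC.dec_enc]
  generalize (pair e.enc (pair x w)).length = l at *
  rw [h, Option.some_inj]
  rw [length_pair, length_pre]
  exact (hc _ _ h1).trans (Nat.pow_le_pow_right two_pos (by nlinarith))

theorem K_cyl : ∃ u : Str, ∀ β z, u ++ z ∈ Kset β := by
  obtain ⟨e, c, h⟩ := K_univ (G := fun _ => [true]) (PT.const _)
  refine ⟨pair e (pair (rep c) []), fun β z => ?_⟩
  have : pair e (pair (rep c) []) ++ z = pair e (pair (rep c) z) := by simp [pair]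
  rw [this]
  exact (h β _ _ (by simp only [length_pair, length_rep]; omega)).2 rfl

theorem K_hard {β : ℕ → Bool} {L : Set Str} (hL : InEXP (ora (tal β)) L) :
    ∃ r : Str → Str, PT r ∧ ∀ x, x ∈ L ↔ r x ∈ Kset β := by
  obtain ⟨V, p, ⟨f, hf, hV⟩, hL⟩ := hL
  obtain ⟨M, rfl⟩ := fp_iff.1 hf
  obtain ⟨q, hq⟩ := run_loc M
  obtain ⟨d, hd⟩ := AC.eval_two_pow q
  have h0 : ∀ {l : Str → Str}, PT l → PT fun u => p.eval (l u).length :=
    fun hl => pt_eval p (PT.length hl)
  have h1 := PT.pow (PT.const 2) (h0 (pt_fstP PT.id)) ((ps_length (pt_fstP PT.id)).eval p)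
  obtain ⟨e, c, h⟩ := K_univ (G := fun u => run M (tal (bs (sndP u)))
    (pair (fstP u) (rep (min (2 ^ p.eval (fstP u).length) (sndP u).length))))
    (pt_runB M (by fun_prop) (pt_pair (by fun_prop) (pt_rep (by fun_prop)
      ((ps_length (pt_sndP PT.id)).mono fun _ => min_le_right _ _))))
  let k : Str → ℕ := fun x => (d + 1) * (p.eval x.length + 2 * x.length + 1) + d + c
  have hk : PT k := by have := h0 PT.id; fun_prop
  have hb : PS k := (((PB.const _).mul ((((ps_length PT.id).eval p).add ((PB.const 2).mul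
    (ps_length PT.id))).add (PB.const 1))).add (PB.const d)).add (PB.const c)
  refine ⟨fun x => pair e (pair x (rep (k x))), pt_pair (PT.const _) (pt_pair PT.id (pt_rep hk hb)),
    fun x => ?_⟩
  have h2 : k x ≤ (pair e (pair x (rep (k x)))).length := by
    simp only [length_pair, length_rep]; omega
  have h3 : k x = (d + 1) * (p.eval x.length + 2 * x.length + 1) + d + c := rfl
  rw [h β x _ (by omega), fstP_pair, sndP_pair, length_pre]
  generalize (pair e (pair x (rep (k x)))).length = l at *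
  rw [min_eq_left (Nat.pow_le_pow_right two_pos (by nlinarith)), hL, hV,
    (hq _).2 β _ fun j hj => bs_pre (hj.trans_le ?_)]
  · rfl
  · rw [length_pair, length_rep]
    refine (eval_mono q (Nat.add_le_add_left (Nat.pow_le_pow_right two_pos
      (show _ ≤ p.eval x.length + 2 * x.length + 1 by omega)) _)).trans
      ((hd _ _ (by omega)).trans (Nat.pow_le_pow_right two_pos (by nlinarith)))

theorem K_complete (β : ℕ → Bool) : Complete (ora (tal β)) (Kset β) :=
  ⟨inEXP_pre (R := fun a => KP a.1 a.2) (ptp_KP (by fun_prop) (by fun_prop))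
    (Polynomial.X * Polynomial.X + Polynomial.X) fun x => (KP_pre (by simp)).symm,
    fun _ hL => let ⟨r, h1, h2⟩ := K_hard hL; ⟨r, fp_of_pt _ h1, h2⟩⟩

end Pool.Agent.P.MP_7a71fe_lc.TD
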